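import Mathlib

/-!
# A residually finite, residually soluble group with no nontrivial finite soluble quotient

Let `R` be the localization of `ℤ[X]` at the multiplicative set generated by the polynomials
`X + n` (`n ≥ 1`) and `I = (X)`.  Then `R ⧸ I = ℚ`, the powers of `I` meet in `0`, and `R` is
residually finite (send `X` to an element `τ ∉ 𝔽_ℓ` of a large finite field of characteristic `ℓ`).
The group `Γ` generated by the elementary matrices `e_ij(a)`, `a ∈ I`, in `SL₃(R)` is residually
finite, residually nilpotent, and each of its finite soluble quotients is trivial, because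
`e_ij(a)` is an `e`-th power times a commutator for every `e ≥ 1`.
-/

open Polynomial

namespace Pool.Agent.Results.MP_92b5af_al.NoFiniteSoluble

/-- `Γ` is residually `C`: for every `g ≠ 1` there is a normal subgroup `N` with `g ∉ N` and
`Γ ⧸ N` in the class `C`. -/
def Residually (C : ∀ (H : Type) [Group H], Prop) (Γ : Type) [Group Γ] : Prop :=
  ∀ g : Γ, g ≠ 1 → ∃ (N : Subgroup Γ) (_ : N.Normal), g ∉ N ∧ C (Γ ⧸ N)

open scoped commutatorElement

section general

variable {R : Type} [CommRing R]

theorem E_nsmul {i j : Fin 3} (h : i ≠ j) (a : R) (n : ℕ) :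
    Matrix.SpecialLinearGroup.transvection h ((n : R) * a)
      = (Matrix.SpecialLinearGroup.transvection h a) ^ n := by
  induction n with
  | zero => simp
  | succ n ih =>
    rw [pow_succ, ← ih, ← Matrix.SpecialLinearGroup.transvection_add]
    congr 1
    push_cast
    ring

theorem E_comm {i j k : Fin 3} (hij : i ≠ j) (hik : i ≠ k) (hkj : k ≠ j) (a b : R) :
    Matrix.SpecialLinearGroup.transvection hij (a * b)
      = ⁅Matrix.SpecialLinearGroup.transvection hik a,
          Matrix.SpecialLinearGroup.transvection hkj b⁆ := by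
  rw [commutatorElement_def, eq_mul_inv_iff_mul_eq, eq_mul_inv_iff_mul_eq]
  apply Subtype.ext
  simp only [Matrix.SpecialLinearGroup.coe_mul, Matrix.SpecialLinearGroup.transvection_coe,
    add_mul, mul_add, one_mul, mul_one,
    Matrix.single_mul_single_same, Matrix.single_mul_single_of_ne _ _ _ _ hkj.symm,
    Matrix.single_mul_single_of_ne _ _ _ _ hij.symm]
  simp [add_comm, add_left_comm, add_assoc]

/-- The group generated by the elementary matrices with parameter in `I`. -/
def H (I : Ideal R) : Subgroup (Matrix.SpecialLinearGroup (Fin 3) R) :=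
  Subgroup.closure {g | ∃ (i j : Fin 3) (h : i ≠ j), ∃ a ∈ I,
    g = Matrix.SpecialLinearGroup.transvection h a}

variable {I : Ideal R}

theorem mem_H {i j : Fin 3} (h : i ≠ j) {a : R} (ha : a ∈ I) :
    Matrix.SpecialLinearGroup.transvection h a ∈ H I :=
  Subgroup.subset_closure ⟨i, j, h, a, ha, rfl⟩

/-- Congruence subgroups. -/
def K (J : Ideal R) : Subgroup (Matrix.SpecialLinearGroup (Fin 3) R) :=
  (Matrix.SpecialLinearGroup.map (Ideal.Quotient.mk J)).ker

instance (J : Ideal R) : (K J).Normal := by unfold K; infer_instance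

theorem mem_K {J : Ideal R} {g : Matrix.SpecialLinearGroup (Fin 3) R} :
    g ∈ K J ↔ ∀ i j, g i j - (1 : Matrix (Fin 3) (Fin 3) R) i j ∈ J := by
  unfold K
  rw [MonoidHom.mem_ker, Matrix.SpecialLinearGroup.ext_iff]
  refine forall_congr' fun i => forall_congr' fun j => ?_
  rw [← Ideal.Quotient.mk_eq_mk_iff_sub_mem]
  have h1 : (1 : Matrix (Fin 3) (Fin 3) (R ⧸ J)) i j
      = Ideal.Quotient.mk J ((1 : Matrix (Fin 3) (Fin 3) R) i j) := by
    rw [Matrix.one_apply, Matrix.one_apply]
    split_ifs <;> simp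
  rw [Matrix.SpecialLinearGroup.coe_one, h1]
  rfl

theorem H_le : H I ≤ K I := by
  unfold H
  rw [Subgroup.closure_le]
  rintro g ⟨i, j, h, a, ha, rfl⟩
  show _ ∈ K I
  rw [mem_K]
  intro k l
  have : (Matrix.SpecialLinearGroup.transvection h a : Matrix (Fin 3) (Fin 3) R) k l
      - (1 : Matrix (Fin 3) (Fin 3) R) k l = Matrix.single i j a k l := by
    rw [Matrix.SpecialLinearGroup.transvection_coe]
    simp
  rw [this, Matrix.single_apply]
  split_ifs
  · exact ha
  · exact I.zero_mem

theorem commutator_K_le (m : ℕ) : ⁅K (I ^ m), K I⁆ ≤ K (I ^ (m + 1)) := by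
  rw [Subgroup.commutator_le]
  intro g hg h hh
  rw [mem_K] at hg hh
  have hcomm : g * h * (h * g)⁻¹ = ⁅g, h⁆ := by
    rw [commutatorElement_def]; group
  rw [← hcomm]
  unfold K
  rw [MonoidHom.mem_ker, map_mul, map_inv, mul_inv_eq_one, Matrix.SpecialLinearGroup.ext_iff]
  intro i j
  show Ideal.Quotient.mk (I ^ (m + 1)) ((g * h : Matrix.SpecialLinearGroup (Fin 3) R) i j)
    = Ideal.Quotient.mk (I ^ (m + 1)) ((h * g : Matrix.SpecialLinearGroup (Fin 3) R) i j)
  rw [Ideal.Quotient.mk_eq_mk_iff_sub_mem]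
  have key : ((g * h : Matrix.SpecialLinearGroup (Fin 3) R) : Matrix (Fin 3) (Fin 3) R) i j
      - ((h * g : Matrix.SpecialLinearGroup (Fin 3) R) : Matrix (Fin 3) (Fin 3) R) i j
      = ∑ k, ((g i k - (1 : Matrix (Fin 3) (Fin 3) R) i k)
              * (h k j - (1 : Matrix (Fin 3) (Fin 3) R) k j)
            - (g k j - (1 : Matrix (Fin 3) (Fin 3) R) k j)
              * (h i k - (1 : Matrix (Fin 3) (Fin 3) R) i k)) := by
    rw [Matrix.SpecialLinearGroup.coe_mul, Matrix.SpecialLinearGroup.coe_mul]
    set A : Matrix (Fin 3) (Fin 3) R := (g : Matrix (Fin 3) (Fin 3) R) - 1 with hA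
    set B : Matrix (Fin 3) (Fin 3) R := (h : Matrix (Fin 3) (Fin 3) R) - 1 with hB
    have h1 : (g : Matrix (Fin 3) (Fin 3) R) = A + 1 := by rw [hA]; abel
    have h2 : (h : Matrix (Fin 3) (Fin 3) R) = B + 1 := by rw [hB]; abel
    have h3 : ((g : Matrix (Fin 3) (Fin 3) R) * (h : Matrix (Fin 3) (Fin 3) R)) i j
      - ((h : Matrix (Fin 3) (Fin 3) R) * (g : Matrix (Fin 3) (Fin 3) R)) i j
      = (A * B - B * A) i j := by
      rw [← Matrix.sub_apply]
      have : (g : Matrix (Fin 3) (Fin 3) R) * (h : Matrix (Fin 3) (Fin 3) R)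
        - (h : Matrix (Fin 3) (Fin 3) R) * (g : Matrix (Fin 3) (Fin 3) R) = A * B - B * A := by
        rw [h1, h2]
        noncomm_ring
      rw [this]
    rw [h3, Matrix.sub_apply, Matrix.mul_apply, Matrix.mul_apply, ← Finset.sum_sub_distrib]
    refine Finset.sum_congr rfl fun k _ => ?_
    simp only [hA, hB, Matrix.sub_apply]
    ring
  rw [key]
  refine Ideal.sum_mem _ fun k _ => ?_
  rw [pow_succ]
  exact Ideal.sub_mem _ (Ideal.mul_mem_mul (hg _ _) (hh _ _)) (Ideal.mul_mem_mul (hg _ _) (hh _ _))

theorem lcs_H_le (n : ℕ) : (H I).lowerCentralSeries n ≤ K (I ^ (n + 1)) := by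
  induction n with
  | zero => simpa using H_le
  | succ n ih =>
    rw [Subgroup.lowerCentralSeries_succ]
    exact (Subgroup.commutator_mono ih H_le).trans (commutator_K_le (n + 1))

theorem exists_entry {g : Matrix.SpecialLinearGroup (Fin 3) R} (hg : g ≠ 1) :
    ∃ i j, g i j - (1 : Matrix (Fin 3) (Fin 3) R) i j ≠ 0 := by
  by_contra h
  push Not at h
  apply hg
  ext i j
  rw [Matrix.SpecialLinearGroup.coe_one]
  exact sub_eq_zero.mp (h i j)

/-- If the powers of `I` meet in `0` then `H I` is residually nilpotent. -/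
theorem resNilp (hI : ⨅ i : ℕ, I ^ i = ⊥) :
    Residually (fun G [Group G] => Group.IsNilpotent G) (H I) := by
  intro g hg
  have hg' : (g : Matrix.SpecialLinearGroup (Fin 3) R) ≠ 1 := fun h => hg (Subtype.ext h)
  obtain ⟨i, j, hij⟩ := exists_entry hg'
  have : ¬ ((g : Matrix.SpecialLinearGroup (Fin 3) R) i j - (1 : Matrix (Fin 3) (Fin 3) R) i j
      ∈ ⨅ i : ℕ, I ^ i) := by
    rw [hI, Ideal.mem_bot]; exact hij
  rw [Submodule.mem_iInf] at this
  push Not at this
  obtain ⟨k, hk⟩ := this
  refine ⟨(K (I ^ (k + 1))).subgroupOf (H I), inferInstance, ?_, ?_⟩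
  · rw [Subgroup.mem_subgroupOf, mem_K]
    intro hh
    exact hk (Ideal.pow_le_pow_right (Nat.le_succ k) (hh i j))
  · refine Subgroup.nilpotent_iff_lowerCentralSeries.mpr ⟨k, ?_⟩
    have hs : (⊤ : Subgroup (H I ⧸ (K (I ^ (k + 1))).subgroupOf (H I)))
        = (⊤ : Subgroup (H I)).map (QuotientGroup.mk' _) :=
      (Subgroup.map_top_of_surjective _ (QuotientGroup.mk'_surjective _)).symm
    rw [hs, ← Subgroup.map_lowerCentralSeries, eq_bot_iff, Subgroup.map_le_iff_le_comap]
    intro x hx
    rw [Subgroup.mem_comap, Subgroup.mem_bot, QuotientGroup.mk'_apply, QuotientGroup.eq_one_iff,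
      Subgroup.mem_subgroupOf]
    apply lcs_H_le k
    rw [← Subgroup.top_subtype_lowerCentralSeries]
    exact ⟨x, hx, rfl⟩

/-- If the ring `R` is residually finite then `H I` is residually finite. -/
theorem resFin (hR : ∀ r : R, r ≠ 0 →
      ∃ (S : Type) (_ : CommRing S) (_ : Finite S) (φ : R →+* S), φ r ≠ 0) :
    Residually (fun G [Group G] => Finite G) (H I) := by
  intro g hg
  have hg' : (g : Matrix.SpecialLinearGroup (Fin 3) R) ≠ 1 := fun h => hg (Subtype.ext h)
  obtain ⟨i, j, hij⟩ := exists_entry hg'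
  obtain ⟨S, _, _, φ, hφ⟩ := hR _ hij
  let f : H I →* Matrix.SpecialLinearGroup (Fin 3) S :=
    (Matrix.SpecialLinearGroup.map φ).comp (H I).subtype
  refine ⟨f.ker, inferInstance, ?_, ?_⟩
  · rw [MonoidHom.mem_ker]
    intro hh
    apply hφ
    have h1 : (f g) i j = (1 : Matrix.SpecialLinearGroup (Fin 3) S) i j := by rw [hh]
    have h2 : (f g) i j = φ ((g : Matrix.SpecialLinearGroup (Fin 3) R) i j) := rfl
    rw [h2, Matrix.SpecialLinearGroup.coe_one] at h1
    rw [map_sub, h1, Matrix.one_apply, Matrix.one_apply]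
    split_ifs <;> simp
  · have : Finite (Matrix.SpecialLinearGroup (Fin 3) S) := Subtype.finite
    exact Finite.of_injective _ (QuotientGroup.kerLift_injective f)

/-- If every positive integer is invertible modulo `I` then `H I` has no nontrivial finite
soluble quotient. -/
theorem no_fin_sol (hinv : ∀ n : ℕ, 0 < n → ∃ x : R, ∃ b ∈ I, (n : R) * x + b = 1)
    (N : Subgroup (H I)) [N.Normal] [Finite (H I ⧸ N)] [Group.IsSolvable (H I ⧸ N)] :
    N = ⊤ := by
  by_contra hN
  have hnt : Nontrivial (H I ⧸ N) := by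
    rw [QuotientGroup.nontrivial_iff]
    exact hN
  have hlt := Group.IsSolvable.commutator_lt_top_of_nontrivial (H I ⧸ N)
  apply hlt.ne
  have key : ∀ x (hx : x ∈ H I), (QuotientGroup.mk' N ⟨x, hx⟩) ∈ commutator (H I ⧸ N) := by
    intro x hx
    unfold H at hx
    induction hx using Subgroup.closure_induction with
    | mem x hx =>
      obtain ⟨i, j, h, a, ha, rfl⟩ := hx
      obtain ⟨k, hik, hkj⟩ : ∃ k : Fin 3, i ≠ k ∧ k ≠ j := by
        clear h ha
        revert i j; decide
      have he : 0 < Nat.card (H I ⧸ N) := Nat.card_pos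
      obtain ⟨y, b, hb, hyb⟩ := hinv _ he
      set e := Nat.card (H I ⧸ N) with hedef
      have hya : y * a ∈ I := Ideal.mul_mem_left _ _ ha
      have hdec : a = (e : R) * (y * a) + b * a := by
        calc a = ((e : R) * y + b) * a := by rw [hyb, one_mul]
          _ = _ := by ring
      have h1 : (⟨Matrix.SpecialLinearGroup.transvection h a, mem_H h ha⟩ : H I)
          = (⟨Matrix.SpecialLinearGroup.transvection h (y * a), mem_H h hya⟩ : H I) ^ e
            * ⁅(⟨Matrix.SpecialLinearGroup.transvection hik b, mem_H hik hb⟩ : H I),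
              (⟨Matrix.SpecialLinearGroup.transvection hkj a, mem_H hkj ha⟩ : H I)⁆ := by
        apply Subtype.ext
        show Matrix.SpecialLinearGroup.transvection h a
          = (Matrix.SpecialLinearGroup.transvection h (y * a)) ^ e
            * ⁅Matrix.SpecialLinearGroup.transvection hik b,
              Matrix.SpecialLinearGroup.transvection hkj a⁆
        rw [← E_comm h hik hkj, ← E_nsmul, ← Matrix.SpecialLinearGroup.transvection_add, ← hdec]
      have h2 : (QuotientGroup.mk' N)
          (⟨Matrix.SpecialLinearGroup.transvection h a, mem_H h ha⟩ : H I)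
          ∈ commutator (H I ⧸ N) := by
        rw [h1, map_mul, map_pow, map_commutatorElement, pow_card_eq_one', one_mul]
        exact Subgroup.commutator_mem_commutator (Subgroup.mem_top _) (Subgroup.mem_top _)
      exact h2
    | one =>
      exact (map_one (QuotientGroup.mk' N)).symm ▸ Subgroup.one_mem _
    | mul x y hx hy h1 h2 =>
      have := Subgroup.mul_mem _ h1 h2
      rw [← map_mul] at this
      exact this
    | inv x hx h1 =>
      have := Subgroup.inv_mem _ h1
      rw [← map_inv] at this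
      exact this
  rw [eq_top_iff]
  intro q _
  obtain ⟨x, rfl⟩ := QuotientGroup.mk'_surjective N q
  exact key x.1 x.2

theorem H_nontrivial {a : R} (ha : a ∈ I) (ha0 : a ≠ 0) : Nontrivial (H I) := by
  have h01 : (0 : Fin 3) ≠ 1 := by decide
  refine ⟨⟨⟨_, mem_H h01 ha⟩, 1, ?_⟩⟩
  intro h
  have h1 : (Matrix.SpecialLinearGroup.transvection h01 a : Matrix (Fin 3) (Fin 3) R) 0 1
      = (1 : Matrix (Fin 3) (Fin 3) R) 0 1 := by
    have h2 := congrArg (fun A : H I => (A : Matrix.SpecialLinearGroup (Fin 3) R)) h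
    simp only at h2
    rw [h2]
    rfl
  rw [Matrix.SpecialLinearGroup.transvection_coe] at h1
  simp at h1
  exact ha0 h1

end general

/-! ### The ring -/

/-- The multiplicative set generated by the polynomials `X + n`, `n ≥ 1`. -/
noncomputable def M : Submonoid ℤ[X] := Submonoid.closure {f | ∃ n : ℕ, f = X + C ((n : ℤ) + 1)}

theorem M_le : M ≤ nonZeroDivisors ℤ[X] := by
  unfold M
  rw [Submonoid.closure_le]
  rintro f ⟨n, rfl⟩
  exact mem_nonZeroDivisors_of_ne_zero (X_add_C_ne_zero _)

/-- The ideal generated by `X` in the localization of `ℤ[X]` at `M`. -/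
noncomputable def I : Ideal (Localization M) := Ideal.span {algebraMap ℤ[X] (Localization M) X}

theorem isDomain : IsDomain (Localization M) := IsLocalization.isDomain_localization M_le

theorem isNoetherian : IsNoetherianRing (Localization M) :=
  IsLocalization.isNoetherianRing M (Localization M) inferInstance

/-- Ring homomorphisms out of the localization. -/
theorem exists_hom {S : Type} [CommRing S] (s : S) (hs : ∀ n : ℕ, IsUnit (s + ((n : S) + 1))) :
    ∃ φ : Localization M →+* S, ∀ f : ℤ[X],
      φ (algebraMap ℤ[X] (Localization M) f) = eval₂ (Int.castRingHom S) s f := by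
  have h : ∀ y : M, IsUnit (eval₂RingHom (Int.castRingHom S) s y) := by
    rintro ⟨y, hy⟩
    simp only
    unfold M at hy
    induction hy using Submonoid.closure_induction with
    | mem x hx =>
      obtain ⟨n, rfl⟩ := hx
      simpa using hs n
    | one => simp
    | mul x y _ _ hx hy => rw [map_mul]; exact hx.mul hy
  refine ⟨IsLocalization.lift h, fun f => ?_⟩
  rw [IsLocalization.lift_eq]
  rfl

theorem I_ne_top : I ≠ ⊤ := by
  obtain ⟨φ, hφ⟩ := exists_hom (S := ℚ) 0 (by
    intro n
    rw [zero_add]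
    exact IsUnit.mk0 _ (by positivity))
  intro h
  have h1 : (1 : Localization M) ∈ I := h ▸ Submodule.mem_top
  unfold I at h1
  rw [Ideal.mem_span_singleton'] at h1
  obtain ⟨a, ha⟩ := h1
  have := congrArg φ ha
  rw [map_mul, hφ] at this
  simp at this

theorem iInf_I_pow : ⨅ i : ℕ, I ^ i = ⊥ := by
  have := isDomain
  have := isNoetherian
  exact Ideal.iInf_pow_eq_bot_of_isDomain I I_ne_top

/-- The localization is residually finite. -/
theorem residually_finite_ring (r : Localization M) (hr : r ≠ 0) :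
    ∃ (S : Type) (_ : CommRing S) (_ : Finite S) (φ : Localization M →+* S), φ r ≠ 0 := by
  obtain ⟨f, m, rfl⟩ := IsLocalization.exists_mk'_eq M r
  have hf : f ≠ 0 := by
    rintro rfl
    exact hr (IsLocalization.mk'_zero _)
  -- choose a prime not dividing some coefficient
  obtain ⟨k, hk⟩ : ∃ k, f.coeff k ≠ 0 := by
    by_contra h
    push Not at h
    exact hf (Polynomial.ext (by simpa using h))
  obtain ⟨ℓ, hℓ, hℓp⟩ := Nat.exists_infinite_primes ((f.coeff k).natAbs + 1)
  have : Fact ℓ.Prime := ⟨hℓp⟩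
  have hkℓ : ((f.coeff k : ℤ) : ZMod ℓ) ≠ 0 := by
    intro h0
    rw [ZMod.intCast_zmod_eq_zero_iff_dvd] at h0
    have := Int.natAbs_dvd_natAbs.mpr h0
    have h2 : (f.coeff k).natAbs ≠ 0 := Int.natAbs_ne_zero.mpr hk
    have := Nat.le_of_dvd (Nat.pos_of_ne_zero h2) this
    simp at this
    omega
  have hfℓ : f.map (Int.castRingHom (ZMod ℓ)) ≠ 0 := by
    intro h0
    apply hkℓ
    have := congrArg (fun q => Polynomial.coeff q k) h0
    simpa using this
  -- a large finite field of characteristic `ℓ`
  set g : (ZMod ℓ)[X] := f.map (Int.castRingHom (ZMod ℓ)) * (X ^ ℓ - X) with hg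
  have hgne : g ≠ 0 := mul_ne_zero hfℓ (FiniteField.X_pow_card_sub_X_ne_zero _ hℓp.one_lt)
  set d := g.natDegree + 1 with hd
  let L := GaloisField ℓ d
  have : Finite L := inferInstance
  have : Fintype L := Fintype.ofFinite L
  have hcard : g.natDegree < Fintype.card L := by
    rw [← Nat.card_eq_fintype_card, GaloisField.card ℓ d (by omega)]
    calc g.natDegree < d := by omega
      _ < ℓ ^ d := Nat.lt_pow_self hℓp.one_lt
  have hgK : g.map (algebraMap (ZMod ℓ) L) ≠ 0 :=
    (Polynomial.map_ne_zero_iff (algebraMap (ZMod ℓ) L).injective).mpr hgne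
  obtain ⟨τ, hτ⟩ := Polynomial.exists_eval_ne_zero_of_natDegree_lt_card
    (g.map (algebraMap (ZMod ℓ) L)) hgK (by
      rw [Polynomial.natDegree_map]
      simpa using hcard)
  have hτ1 : eval₂ (Int.castRingHom L) τ f ≠ 0 ∧ τ ^ ℓ - τ ≠ 0 := by
    rw [hg] at hτ
    rw [Polynomial.eval_map, eval₂_mul, eval₂_map] at hτ
    have hh : (algebraMap (ZMod ℓ) L).comp (Int.castRingHom (ZMod ℓ)) = Int.castRingHom L :=
      RingHom.ext_int _ _
    rw [hh] at hτ
    refine ⟨left_ne_zero_of_mul hτ, ?_⟩
    have := right_ne_zero_of_mul hτ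
    simpa using this
  obtain ⟨φ, hφ⟩ := exists_hom (S := L) τ (by
    intro n
    apply IsUnit.mk0
    intro h0
    have h1 : τ = -((n : L) + 1) := eq_neg_of_add_eq_zero_left h0
    apply hτ1.2
    rw [h1]
    have h2 : (-((n : L) + 1)) = algebraMap (ZMod ℓ) L (-((n : ZMod ℓ) + 1)) := by simp
    rw [h2, ← map_pow, ZMod.pow_card, sub_self])
  refine ⟨L, inferInstance, inferInstance, φ, ?_⟩
  intro h0
  apply hτ1.1
  rw [← hφ]
  have h3 := congrArg φ (IsLocalization.mk'_spec (Localization M) f m)
  rw [map_mul, h0, zero_mul] at h3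
  exact h3.symm

/-- Every positive integer is invertible modulo `I`. -/
theorem exists_inv (n : ℕ) (hn : 0 < n) :
    ∃ x : Localization M, ∃ b ∈ I, (n : Localization M) * x + b = 1 := by
  obtain ⟨k, rfl⟩ : ∃ k, n = k + 1 := ⟨n - 1, by omega⟩
  have hmem : (X + C ((k : ℤ) + 1) : ℤ[X]) ∈ M := Submonoid.subset_closure ⟨k, rfl⟩
  set u : Localization M := algebraMap ℤ[X] (Localization M) (X + C ((k : ℤ) + 1)) with hu
  have hunit : IsUnit u := IsLocalization.map_units (Localization M) (⟨_, hmem⟩ : M)
  obtain ⟨v, hv⟩ := hunit.exists_right_inv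
  refine ⟨v, algebraMap ℤ[X] (Localization M) X * v, ?_, ?_⟩
  · unfold I
    exact Ideal.mul_mem_right _ _ (Ideal.mem_span_singleton_self _)
  · rw [← hv, hu, map_add]
    have : algebraMap ℤ[X] (Localization M) (C ((k : ℤ) + 1)) = ((k + 1 : ℕ) : Localization M) := by
      simp
    rw [this]
    ring

theorem X_ne : algebraMap ℤ[X] (Localization M) X ≠ 0 := by
  have := IsLocalization.injective (Localization M) M_le
  rw [Ne, map_eq_zero_iff _ this]
  exact X_ne_zero

theorem X_mem : algebraMap ℤ[X] (Localization M) X ∈ I := Ideal.mem_span_singleton_self _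

theorem countable_ring : Countable (Localization M) := by
  have h0 : Countable ℤ[X] := by
    rw [← Cardinal.mk_le_aleph0_iff]
    exact Polynomial.cardinalMk_le_max.trans (by simp)
  have h1 : Countable (ℤ[X] × M) := inferInstance
  exact Function.Surjective.countable (f := fun x : ℤ[X] × M => IsLocalization.mk' (Localization M) x.1 x.2)
    (fun y => by
      obtain ⟨a, b, h⟩ := IsLocalization.exists_mk'_eq M y
      exact ⟨(a, b), h⟩)

/-- **Q1, answered positively.** There is a countable group which is residually finite and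
residually soluble (even residually nilpotent) but not residually finite-soluble; in fact it
has no nontrivial finite soluble quotient at all. -/
theorem result :
    ∃ (Γ : Type) (_ : Group Γ), Countable Γ ∧
      Residually (fun G [Group G] => Finite G) Γ ∧
      Residually (fun G [Group G] => Group.IsSolvable G) Γ ∧
      Residually (fun G [Group G] => Group.IsNilpotent G) Γ ∧
      ¬ Residually (fun G [Group G] => Finite G ∧ Group.IsSolvable G) Γ ∧
      ∀ (N : Subgroup Γ) (_ : N.Normal), Finite (Γ ⧸ N) → Group.IsSolvable (Γ ⧸ N) → N = ⊤ := by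
  refine ⟨H I, inferInstance, ?_, resFin residually_finite_ring, ?_, resNilp iInf_I_pow, ?_, ?_⟩
  · have h1 := countable_ring
    have h3 : Countable (Matrix (Fin 3) (Fin 3) (Localization M)) :=
      inferInstanceAs (Countable (Fin 3 → Fin 3 → Localization M))
    have h2 : Countable (Matrix.SpecialLinearGroup (Fin 3) (Localization M)) := Subtype.countable
    infer_instance
  · intro g hg
    obtain ⟨N, hN, hgN, hnil⟩ := resNilp iInf_I_pow g hg
    exact ⟨N, hN, hgN, inferInstance⟩
  · intro hres
    have := H_nontrivial X_mem X_ne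
    obtain ⟨g, hg⟩ := exists_ne (1 : H I)
    obtain ⟨N, hN, hgN, hfin, hsol⟩ := hres g hg
    exact hgN ((no_fin_sol exists_inv N).symm ▸ Subgroup.mem_top g)
  · intro N hN hfin hsol
    exact no_fin_sol exists_inv N

end Pool.Agent.Results.MP_92b5af_al.NoFiniteSoluble
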